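import Mathlib
import Pool.Agent.H85.FW.W0

/-!
# Comb1: divisibility (helper6)
-/

set_option autoImplicit false

namespace Pool.Agent.H6.FW

open Pool.Agent.H85.FW

variable {N : ℕ}

theorem choose_dvd {p j r s : ℕ} (hp : p.Prime) (hr : p ^ (j + 1) ∣ r) (hs : 1 ≤ s) (hs' : s < p ^ (j + 1)) :
    p ∣ r.choose s := by
  by_contra hno
  obtain ⟨s, rfl⟩ : ∃ t, s = t + 1 := ⟨s - 1, by omega⟩
  rcases Nat.eq_zero_or_pos r with h0 | h0
  · subst h0
    simp at hno
  obtain ⟨r, rfl⟩ : ∃ t, r = t + 1 := ⟨r - 1, by omega⟩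
  have h1 := Nat.add_one_mul_choose_eq r s
  have h2 : p ^ (j + 1) ∣ (r + 1).choose (s + 1) * (s + 1) := by
    rw [← h1]
    exact Dvd.dvd.mul_right hr _
  have h3 : Nat.Coprime (p ^ (j + 1)) ((r + 1).choose (s + 1)) :=
    Nat.Coprime.pow_left _ ((Nat.Prime.coprime_iff_not_dvd hp).2 hno)
  have h4 := h3.dvd_of_dvd_mul_left h2
  have := Nat.le_of_dvd (by omega) h4
  omega

theorem choose_ndvd {p j : ℕ} (hp : p.Prime) (h1 : p ^ j ∣ N) (h2 : ¬ p ^ (j + 1) ∣ N) : ¬ p ∣ N.choose (p ^ j) := by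
  have : Fact p.Prime := ⟨hp⟩
  obtain ⟨u, rfl⟩ := h1
  have hu : ¬ p ∣ u := by
    intro h
    apply h2
    rw [pow_succ]
    exact mul_dvd_mul_left _ h
  clear h2
  induction j with
  | zero => simpa using hu
  | succ j ih =>
    have h3 := @Choose.choose_modEq_choose_mod_mul_choose_div_nat (p ^ (j + 1) * u) (p ^ (j + 1)) p _
    have e1 : p ^ (j + 1) % p = 0 := Nat.mod_eq_zero_of_dvd (dvd_pow_self p (by omega))
    have e2 : (p ^ (j + 1) * u) % p = 0 := Nat.mod_eq_zero_of_dvd (Dvd.dvd.mul_right (dvd_pow_self p (by omega)) _)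
    have e3 : p ^ (j + 1) / p = p ^ j := by
      rw [pow_succ]
      exact Nat.mul_div_cancel _ hp.pos
    have e4 : (p ^ (j + 1) * u) / p = p ^ j * u := by
      rw [pow_succ, mul_right_comm]
      exact Nat.mul_div_cancel _ hp.pos
    rw [e1, e2, e3, e4] at h3
    simp only [Nat.choose_self, one_mul] at h3
    intro h
    exact ih ((Nat.ModEq.dvd_iff h3 dvd_rfl).1 h)

open Classical in
theorem cm_dvd {p j q r : ℕ} (hp : p.Prime) (hr : p ^ (j + 1) ∣ r) (hq : 1 ≤ q) (hq' : q < p ^ (j + 1))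
    (Q : Finset (Finset (Fin N))) :
    p ∣ ((Finset.powersetCard q (Finset.univ : Finset (Fin N))).filter fun S => Cm r S Q).card := by
  set F := ((Finset.powersetCard q (Finset.univ : Finset (Fin N))).filter fun S => Cm r S Q) with hF
  rcases F.eq_empty_or_nonempty with h | ⟨S0, hS0⟩
  · rw [h]
    simp
  have hmem : ∀ S, S ∈ F ↔ S.card = q ∧ Cm r S Q := by
    intro S
    simp [hF, Finset.mem_filter, Finset.mem_powersetCard]
  obtain ⟨hc0, hC0⟩ := (hmem S0).1 hS0
  obtain ⟨a0, ha0⟩ := Finset.card_pos.1 (by omega : 0 < S0.card)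
  obtain ⟨B0, hB0, ha0B⟩ := hC0.2.2 a0 ha0
  have hBr : B0.card = r := (hC0.1 B0 hB0).1
  rw [Finset.card_eq_sum_card_image (fun S => S \ B0) F]
  refine Finset.dvd_sum fun T hT => ?_
  obtain ⟨S1, hS1, rfl⟩ := Finset.mem_image.1 hT
  obtain ⟨hc1, hC1⟩ := (hmem S1).1 hS1
  have hlt : (S1 \ B0).card < q := by
    obtain ⟨a, ha, haB⟩ := (hC1.1 B0 hB0).2
    rw [← hc1]
    refine Finset.card_lt_card ⟨Finset.sdiff_subset, fun h => ?_⟩
    have := h ha
    simp [haB] at this
  have hcard : (F.filter (fun S => S \ B0 = S1 \ B0)).card = r.choose (q - (S1 \ B0).card) := by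
    rw [← hBr, ← Finset.card_powersetCard]
    refine Finset.card_nbij' (fun S => S ∩ B0) (fun R => (S1 \ B0) ∪ R) ?_ ?_ ?_ ?_
    · intro S hS
      simp only [Finset.coe_filter, Set.mem_ofPred_eq] at hS
      obtain ⟨hS, hST⟩ := hS
      obtain ⟨hc, hC⟩ := (hmem S).1 hS
      simp only [Finset.mem_coe, Finset.mem_powersetCard]
      refine ⟨Finset.inter_subset_right, ?_⟩
      have := Finset.card_sdiff_add_card_inter S B0
      rw [hST] at this
      omega
    · intro R hR
      simp only [Finset.mem_coe, Finset.mem_powersetCard] at hR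
      obtain ⟨hRB, hRc⟩ := hR
      have hd : Disjoint (S1 \ B0) R := by
        rw [Finset.disjoint_left]
        intro x hx hx'
        simp [hRB hx'] at hx
      simp only [Finset.coe_filter, Set.mem_ofPred_eq]
      refine ⟨(hmem _).2 ⟨?_, ?_⟩, ?_⟩
      · rw [Finset.card_union_of_disjoint hd]
        omega
      · refine ⟨fun B hB => ⟨(hC1.1 B hB).1, ?_⟩, hC1.2.1, ?_⟩
        · by_cases hBB : B = B0
          · subst hBB
            obtain ⟨x, hx⟩ := Finset.card_pos.1 (by omega : 0 < R.card)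
            exact ⟨x, Finset.mem_union_right _ hx, hRB hx⟩
          · obtain ⟨x, hx, hxB⟩ := (hC1.1 B hB).2
            refine ⟨x, Finset.mem_union_left _ (Finset.mem_sdiff.2 ⟨hx, fun h => ?_⟩), hxB⟩
            exact Finset.disjoint_left.1 (hC1.2.1 B hB B0 hB0 hBB) hxB h
        · intro x hx
          rcases Finset.mem_union.1 hx with hx | hx
          · exact hC1.2.2 x (Finset.mem_sdiff.1 hx).1
          · exact ⟨B0, hB0, hRB hx⟩
      · rw [Finset.union_sdiff_distrib, Finset.sdiff_eq_empty_iff_subset.2 hRB, Finset.union_empty,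
          Finset.sdiff_idem]
    · intro S hS
      simp only [Finset.coe_filter, Set.mem_ofPred_eq] at hS
      show S1 \ B0 ∪ S ∩ B0 = S
      rw [← hS.2]
      exact Finset.sdiff_union_inter S B0
    · intro R hR
      simp only [Finset.mem_coe, Finset.mem_powersetCard] at hR
      show (S1 \ B0 ∪ R) ∩ B0 = R
      rw [Finset.union_inter_distrib_right, Finset.inter_eq_left.2 hR.1, Finset.sdiff_inter_self,
        Finset.empty_union]
  rw [hcard]
  exact choose_dvd hp hr (by omega) (by omega)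

end Pool.Agent.H6.FW
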